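import Pool.Agent.ZES.StmtsZ

set_option autoImplicit false

/-!
# ZES, row ESD
-/

namespace Pool.Agent.ZES.H64

open scoped BigOperators InnerProductSpace
open Pool.Agent.THS Pool.Agent.ZES

theorem esd (tnm : TnmStmt) : EsdStmt := by
  intro V _ _ L χ hL D h2 hfin hnbp
  obtain ⟨_, _, h3, h4⟩ := tnm V L χ hL
  exact {
    fin := hfin
    dif := fun f hf => hf.1
    addl := fun p hp q hq y => h2 (h3 D p hp q hq y)
    neg := fun f hf => h4 D f hf
    nbp := hnbp }

end Pool.Agent.ZES.H64
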